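import Pool.Agent.MP_2ab689_gt.Fam.Q.Pt

/-!
Chains of slabs for face inequalities without edge terms.
-/

namespace Pool.Agent.MP_2ab689_gt.Fam.Q

open Real Big E11

theorem pi12 : (3141592653589 : ℝ) ≤ 10 ^ 12 * π ∧ 10 ^ 12 * π ≤ 3141592653590 :=
  ⟨by linarith [pi_gt_d20], by linarith [pi_lt_d20]⟩

theorem lin (w v : ℕ) {lo hi Y : ℝ} (h1 : lo ≤ Y) (h2 : Y ≤ hi) :
    (w - v : ℕ) * lo ≤ (v - w : ℕ) * hi + (w - v : ℝ) * Y := by
  rw [tsub, tsub]
  rcases le_total (w : ℝ) v with h | h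
  · rw [max_eq_right (by linarith), max_eq_left (by linarith)]
    nlinarith [mul_le_mul_of_nonneg_left h2 (sub_nonneg.mpr h)]
  · rw [max_eq_left (by linarith), max_eq_right (by linarith)]
    nlinarith [mul_le_mul_of_nonneg_left h1 (sub_nonneg.mpr h)]

/-- A lower bound `P - Q` of `cot y + q y` from a tangent line. -/
noncomputable def tm (b hi q T : ℕ) (k : ℕ → ℕ → Bool) : Bool :=
  pt T fun c t => and (Nat.ble b c) (force (Nat.add (Nat.mul c 1000000000000)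
    (Nat.mul (Nat.add 100000000000 (Nat.div (Nat.mul c c) 100000000000)) t)) fun P =>
    force (Nat.mul (Nat.sub (Nat.add 335644320000001 (Nat.div (Nat.mul (Nat.add c 1) (Nat.add c 1))
      100000000000)) q) hi) (k P))

theorem tm_sound {b hi q T : ℕ} {k : ℕ → ℕ → Bool} (h : tm b hi q T k = true) {y : ℝ}
    (h0 : 0 < y) (h1 : y < π) (h2 : -(b : ℝ) ≤ 10 ^ 11 * cot y) (h3 : 10 ^ 12 * y ≤ hi) :
    ∃ P Q : ℕ, k P Q = true ∧
      (P : ℝ) ≤ Q + 10 ^ 23 * cot y + (q - 335544320000000) * (10 ^ 12 * y) := by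
  obtain ⟨β, c, t, ⟨p0, p1, p2, p3, -⟩, h⟩ := pt_sound h
  simp only [force_eq, Bool.and_eq_true, Nat.ble_eq, Nat.add_eq, Nat.mul_eq, Nat.sub_eq,
    div_eq'] at h
  refine ⟨_, _, h.2, ?_⟩
  have hb : (b : ℝ) ≤ c := by exact_mod_cast h.1
  have e := tang0 p0 h0 h1 (by linarith)
  have c0 : (0 : ℝ) ≤ c := by positivity
  have q1 := (div_bd (a := c * c) (b := 100000000000) (x := c * c / 10 ^ 11) (by norm_num)
    (by push_cast; ring)).1
  have q2 := (div_bd (a := (c + 1) * (c + 1)) (b := 100000000000)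
    (x := (c + 1) * (c + 1) / 10 ^ 11) (by norm_num) (by push_cast; ring)).2
  have q3 := lin q (335644320000001 + (c + 1) * (c + 1) / 100000000000)
    (by positivity : (0 : ℝ) ≤ 10 ^ 12 * y) h3
  generalize c * c / 100000000000 = d1 at *
  generalize (c + 1) * (c + 1) / 100000000000 = d2 at *
  have q4 : (100000000000 + d1 : ℝ) * t ≤ 10 ^ 11 * (1 + β ^ 2) * (10 ^ 12 * (π / 2 - arctan β)) :=
    mul_le_mul (by linarith [mul_self_le_mul_self c0 p1]) p3 (by positivity) (by positivity)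
  have q5 : 10 ^ 11 * (1 + β ^ 2) * (10 ^ 12 * y) ≤ (100000000001 + d2) * (10 ^ 12 * y) :=
    mul_le_mul_of_nonneg_right (by linarith [mul_self_le_mul_self (by positivity) p2])
      (by positivity)
  push_cast at q3 ⊢
  linarith

/-- Three terms. -/
noncomputable def t3 (b hi a s w0 w1 w2 n : ℕ) (k : ℕ → ℕ → Bool) : Bool :=
  tm b hi (Nat.add a (Nat.mul s w0)) (Nat.mod n 4194304) fun P0 Q0 =>
  tm b hi (Nat.add a (Nat.mul s w1)) (Nat.mod (Nat.shiftRight n 22) 4194304) fun P1 Q1 =>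
  tm b hi (Nat.add a (Nat.mul s w2)) (Nat.mod (Nat.shiftRight n 44) 4194304) fun P2 Q2 =>
  force (Nat.add (Nat.add P0 P1) P2) fun P => force (Nat.add (Nat.add Q0 Q1) Q2) (k P)

/-- The range of an angle. -/
def Rg (b hi : ℕ) (y : ℝ) : Prop := 0 < y ∧ y < π ∧ -(b : ℝ) ≤ 10 ^ 11 * cot y ∧ 10 ^ 12 * y ≤ hi

theorem t3_sound {b hi a s w0 w1 w2 n : ℕ} {k : ℕ → ℕ → Bool}
    (h : t3 b hi a s w0 w1 w2 n k = true) {x y z : ℝ} (hx : Rg b hi x) (hy : Rg b hi y)
    (hz : Rg b hi z) : ∃ P Q : ℕ, k P Q = true ∧ (P : ℝ) ≤ Q + 10 ^ 23 * (cot x + cot y + cot z) +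
      (a - 335544320000000) * (10 ^ 12 * (x + y + z)) +
      s * (10 ^ 12 * (w0 * x + w1 * y + w2 * z)) := by
  obtain ⟨P0, Q0, h, e0⟩ := tm_sound h hx.1 hx.2.1 hx.2.2.1 hx.2.2.2
  obtain ⟨P1, Q1, h, e1⟩ := tm_sound h hy.1 hy.2.1 hy.2.2.1 hy.2.2.2
  obtain ⟨P2, Q2, h, e2⟩ := tm_sound h hz.1 hz.2.1 hz.2.2.1 hz.2.2.2
  simp only [force_eq, Nat.add_eq, Nat.mul_eq] at h e0 e1 e2
  refine ⟨_, _, h, ?_⟩
  push_cast at e0 e1 e2 ⊢
  linarith

/-- The test at an end of a slab. -/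
def ok (l P Q s : ℕ) : Bool := Nat.ble (Nat.add 4000000000000000000000000000000 (Nat.mul l
  (Nat.add Q (Nat.mul (Nat.mul s l) 1000000000000)))) (Nat.mul l P)

theorem ok_iff {l P Q s : ℕ} (h : ok l P Q s = true) :
    (4 * 10 ^ 30 : ℝ) ≤ l * (P - Q - s * 10 ^ 12 * l) := by
  simp only [ok, Nat.ble_eq, Nat.add_eq, Nat.mul_eq] at h
  have := (Nat.cast_le (α := ℝ)).mpr h
  push_cast at this
  linarith

/-- One slab. -/
noncomputable def step (m : ℕ) (f : ℕ → ℕ → ℕ → (ℕ → ℕ → Bool) → Bool) (n : ℕ) (ih : ℕ → Bool)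
    (l : ℕ) : Bool :=
  force n fun n => force (Nat.mod n 16777216) fun l' =>
    force (Nat.mul (Nat.mod (Nat.shiftRight n 24) 67108864) 10000000) fun a =>
    force (Nat.mod (Nat.shiftRight n 50) 67108864) fun s =>
    force (Nat.shiftRight n 76) fun n =>
    and (f a s n fun P Q => force (Nat.add (Nat.add P 1054143570665516564480000000)
      (Nat.mul (Nat.mul s m) 1000000000000)) fun P => force (Nat.add (Nat.add Q
      (Nat.mul a 3141592653590)) (Nat.mul s 100000000000000000000)) fun Q =>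
      and (ok l P Q s) (ok l' P Q s)) (ih l')

/-- A chain of slabs. -/
noncomputable def chain (m : ℕ) (f : ℕ → ℕ → ℕ → (ℕ → ℕ → Bool) → Bool) (C : List ℕ) (l : ℕ) :
    Bool :=
  force l (List.rec (fun l => Nat.ble 10000000 l) (fun n _ ih => step m f n ih) C)

theorem slab {m l l' a s P Q : ℕ} {S X : ℝ}
    (h1 : ok l (Nat.add (Nat.add P 1054143570665516564480000000)
      (Nat.mul (Nat.mul s m) 1000000000000)) (Nat.add (Nat.add Q
      (Nat.mul a 3141592653590)) (Nat.mul s 100000000000000000000)) s = true)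
    (h2 : ok l' (Nat.add (Nat.add P 1054143570665516564480000000)
      (Nat.mul (Nat.mul s m) 1000000000000)) (Nat.add (Nat.add Q
      (Nat.mul a 3141592653590)) (Nat.mul s 100000000000000000000)) s = true)
    (e : (P : ℝ) ≤ Q + 10 ^ 23 * X + (a - 335544320000000) * (10 ^ 12 * π) + s * (10 ^ 12 * S))
    (hl : 0 < l → (l : ℝ) ≤ m - 10 ^ 8 + S) (ih : (0 < l' → (l' : ℝ) ≤ m - 10 ^ 8 + S) →
      4 * 10 ^ 7 ≤ (m - 10 ^ 8 + S) * X) : 4 * 10 ^ 7 ≤ (m - 10 ^ 8 + S) * X := by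
  have k1 := ok_iff h1
  have k2 := ok_iff h2
  clear h1 h2
  simp only [Nat.add_eq, Nat.mul_eq] at k1 k2
  push_cast at k1 k2
  have hl := hl (Nat.pos_of_ne_zero fun e => by rw [e] at k1; norm_num at k1)
  obtain ⟨L, hL⟩ : ∃ L, L = (m : ℝ) - 10 ^ 8 + S := ⟨_, rfl⟩
  obtain ⟨A, hA⟩ : ∃ A : ℝ, A = P + 1054143570665516564480000000 + s * m * 1000000000000 -
    (Q + a * 3141592653590 + s * 100000000000000000000) := ⟨_, rfl⟩
  rw [← hL] at hl ih ⊢
  rw [← hA] at k1 k2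
  rcases le_total L l' with h | h
  swap
  · exact ih fun _ => h
  have e1 : A - s * 10 ^ 12 * L ≤ 10 ^ 23 * X := by
    have := mul_le_mul_of_nonneg_left pi12.2 (by positivity : (0 : ℝ) ≤ a)
    rw [hA, hL]
    linarith [pi12.1]
  have l0 : (0 : ℝ) ≤ l := by positivity
  have e2 := mul_le_mul_of_nonneg_left e1 (l0.trans hl)
  obtain ⟨B, hB⟩ : ∃ B : ℝ, B = s * 10 ^ 12 := ⟨_, rfl⟩
  have B0 : 0 ≤ B := hB ▸ by positivity
  rw [← hB] at k1 k2 e2
  rcases le_total (B * (L + l)) A with h3 | h3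
  · linarith [mul_nonneg (sub_nonneg.mpr hl) (sub_nonneg.mpr h3)]
  · have := mul_le_mul_of_nonneg_left (by linarith : L + l ≤ L + l') B0
    linarith [mul_nonneg (sub_nonneg.mpr h) (by linarith : 0 ≤ B * (L + l') - A)]

theorem chain_sound {m : ℕ} {f : ℕ → ℕ → ℕ → (ℕ → ℕ → Bool) → Bool} {S X : ℝ} (hX : 4 ≤ X)
    (hf : ∀ a s n k, f a s n k = true → ∃ P Q : ℕ, k P Q = true ∧
      (P : ℝ) ≤ Q + 10 ^ 23 * X + (a - 335544320000000) * (10 ^ 12 * π) + s * (10 ^ 12 * S))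
    (C : List ℕ) : ∀ l, chain m f C l = true → (0 < l → (l : ℝ) ≤ m - 10 ^ 8 + S) →
      4 * 10 ^ 7 ≤ (m - 10 ^ 8 + S) * X := by
  induction C with
  | nil =>
    intro l h hl
    rw [chain, force_eq] at h
    have h : 10000000 ≤ l := Nat.le_of_ble_eq_true h
    have h' : (10000000 : ℝ) ≤ l := by exact_mod_cast h
    have := hl (by omega)
    nlinarith
  | cons n r ih =>
    intro l h hl
    simp only [chain, force_eq] at h ih
    simp only [step, force_eq, Bool.and_eq_true] at h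
    obtain ⟨P, Q, h1, e⟩ := hf _ _ _ _ h.1
    simp only [Bool.and_eq_true] at h1
    exact slab h1.1 h1.2 e hl (ih _ h.2)

/-- The first end of a chain. -/
def base (m v P Q : ℕ) : ℕ := Nat.div (Nat.sub (Nat.add (Nat.add (Nat.mul m 1000000000000)
  (Nat.mul v 3141592653589)) P) (Nat.add 100000000000000000000 Q)) 1000000000000

theorem base_le {m v P Q : ℕ} {S : ℝ} (h : (P : ℝ) ≤ Q + 10 ^ 12 * S - v * (10 ^ 12 * π))
    (h0 : 0 < base m v P Q) : (base m v P Q : ℝ) ≤ m - 10 ^ 8 + S := by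
  simp only [base, Nat.add_eq, Nat.mul_eq, Nat.sub_eq, div_eq'] at h0 ⊢
  refine Nat.cast_div_le.trans ?_
  rw [Nat.cast_sub (Nat.sub_pos_iff_lt.mp (Nat.pos_of_div_pos h0)).le]
  push_cast
  linarith [mul_le_mul_of_nonneg_left pi12.1 (by positivity : (0 : ℝ) ≤ v)]

end Pool.Agent.MP_2ab689_gt.Fam.Q
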