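import Pool.Agent.MP_2ab689_gt.Fam.Q.Far

/-!
The checker for face inequalities without edge terms.
-/

namespace Pool.Agent.MP_2ab689_gt.Fam.Q

open Real Big E11

/-- Minimum. -/
def mn (a b : ℕ) : ℕ := cond (Nat.ble a b) a b

/-- Maximum. -/
def mx (a b : ℕ) : ℕ := cond (Nat.ble a b) b a

/-- The region without very obtuse angle. -/
noncomputable def r0 (m w0 w1 w2 w3 v : ℕ) (C : List ℕ) (c t : ℕ) : Bool :=
  force (Nat.add c 1) fun b => force (Nat.sub 3141592653590 t) fun hi =>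
  chain m (fun a s n k => t3 b hi a s w0 w1 w2 n fun P Q =>
      tm b hi (Nat.add a (Nat.mul s w3)) (Nat.shiftRight n 66) fun P' Q' =>
        k (Nat.add P P') (Nat.add Q Q')) C
    (base m v 0 (Nat.mul (Nat.add (Nat.add (Nat.add (Nat.sub v w0) (Nat.sub v w1)) (Nat.sub v w2))
      (Nat.sub v w3)) hi))

theorem Pt.ends {β : ℝ} {c t : ℕ} (p : Pt β c t) :
    ((3141592653589 - (t + 4000000) : ℕ) : ℝ) ≤ 10 ^ 12 * (π / 2 + arctan β) ∧
      10 ^ 12 * (π / 2 + arctan β) ≤ (3141592653590 - t : ℕ) := by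
  obtain ⟨p0, -, -, p3, p4⟩ := p
  rw [tsub, tsub]
  push_cast
  exact ⟨max_le (by linarith [pi12.1]) (by linarith [arctan_nonneg.mpr p0, pi_pos]),
    le_max_of_le_left (by linarith [pi12.2])⟩

theorem Pt.rg {β y : ℝ} {c t : ℕ} (p : Pt β c t) (h0 : 0 < y) (h : y ≤ π / 2 + arctan β) :
    Rg (c + 1) (3141592653590 - t) y :=
  ⟨h0, by linarith [arctan_lt_pi_div_two β], by push_cast; linarith [cot_ge_of h0 h, p.2.2.1],
    le_trans (by linarith) p.ends.2⟩

theorem r0_sound {m w0 w1 w2 w3 v c t : ℕ} {C : List ℕ} (h : r0 m w0 w1 w2 w3 v C c t = true)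
    {x y z u : ℝ} (hx : Rg (c + 1) (3141592653590 - t) x) (hy : Rg (c + 1) (3141592653590 - t) y)
    (hz : Rg (c + 1) (3141592653590 - t) z) (hu : Rg (c + 1) (3141592653590 - t) u)
    (hs : x + y + z + u = π) (hX : 4 ≤ cot x + cot y + cot z + cot u) :
    4 * 10 ^ 7 ≤ (m - 10 ^ 8 + (w0 * x + w1 * y + w2 * z + w3 * u)) *
      (cot x + cot y + cot z + cot u) := by
  simp only [r0, force_eq] at h
  refine chain_sound hX (fun a s n k h => ?_) C _ h (base_le ?_)
  · obtain ⟨P, Q, h, e⟩ := t3_sound h hx hy hz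
    obtain ⟨P', Q', h, e'⟩ := tm_sound h hu.1 hu.2.1 hu.2.2.1 hu.2.2.2
    refine ⟨_, _, h, ?_⟩
    simp only [Nat.add_eq, Nat.mul_eq] at e' ⊢
    push_cast at e' ⊢
    rw [← hs]
    linarith
  · have a0 := lin w0 v (lo := 0) (by linarith [hx.1]) hx.2.2.2
    have a1 := lin w1 v (lo := 0) (by linarith [hy.1]) hy.2.2.2
    have a2 := lin w2 v (lo := 0) (by linarith [hz.1]) hz.2.2.2
    have a3 := lin w3 v (lo := 0) (by linarith [hu.1]) hu.2.2.2
    simp only [Nat.add_eq, Nat.mul_eq, Nat.sub_eq, Nat.cast_add, Nat.cast_mul, Nat.cast_zero]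
    rw [← hs]
    linarith

/-- An interval of obtuse angles. -/
noncomputable def iv (m w w0 w1 w2 v : ℕ) (C : List ℕ) (c t c' t' : ℕ) : Bool :=
  force (Nat.add t 4000000) fun hi =>
  force (Nat.sub 3141592653589 hi) fun l1 => force (Nat.sub 3141592653590 t) fun h1 =>
  force (Nat.sub 3141592653589 (Nat.add t' 4000000)) fun l2 =>
  force (Nat.sub 3141592653590 t') fun h2 =>
  force (Nat.mul (Nat.add c 1) 1000000000000) fun e1 =>
  force (Nat.mul (Nat.add c' 1) 1000000000000) fun e2 =>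
  chain m (fun a s n k => t3 0 hi a s w0 w1 w2 n fun P Q =>
      force (Nat.sub (Nat.add a (Nat.mul s w)) 335544320000000) fun q =>
      force (Nat.sub 335544320000000 (Nat.add a (Nat.mul s w))) fun r =>
      and (k (Nat.add P (Nat.mul q l1)) (Nat.add Q (Nat.add (Nat.mul r h1) e1)))
        (k (Nat.add P (Nat.mul q l2)) (Nat.add Q (Nat.add (Nat.mul r h2) e2)))) C
    (base m v (Nat.mul (Nat.sub w v) l1) (Nat.add (Nat.mul (Nat.sub v w) h2)
      (Nat.mul (Nat.add (Nat.add (Nat.sub v w0) (Nat.sub v w1)) (Nat.sub v w2)) hi)))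

theorem iv_sound {m w w0 w1 w2 v c t c' t' : ℕ} {C : List ℕ}
    (h : iv m w w0 w1 w2 v C c t c' t' = true) {β β' k x y z : ℝ} (p : Pt β c t)
    (p' : Pt β' c' t') (hx : 0 < x) (hy : 0 < y) (hz : 0 < z) (hs : k + x + y + z = π)
    (k1 : π / 2 + arctan β ≤ k) (k2 : k ≤ π / 2 + arctan β')
    (hX : 4 ≤ cot k + cot x + cot y + cot z) :
    4 * 10 ^ 7 ≤ (m - 10 ^ 8 + (w * k + w0 * x + w1 * y + w2 * z)) *
      (cot k + cot x + cot y + cot z) := by
  simp only [iv, force_eq] at h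
  have rg : ∀ u, 0 < u → u ≤ x + y + z → Rg 0 (t + 4000000) u := fun u a b => by
    have := arctan_nonneg.mpr p.1
    have := cot_ge_of (b := 0) a (by rw [arctan_zero]; linarith)
    exact ⟨a, by linarith, by push_cast; linarith, by push_cast; linarith [p.2.2.2.2]⟩
  have rx := rg x hx (by linarith)
  have ry := rg y hy (by linarith)
  have rz := rg z hz (by linarith)
  refine chain_sound hX (fun a s n k' h => ?_) C _ h (base_le ?_)
  · obtain ⟨P, Q, h, e⟩ := t3_sound h rx ry rz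
    rw [Bool.and_eq_true] at h
    have a1 := lin (a + s * w) 335544320000000 p.ends.1 p.ends.2
    have a2 := lin (a + s * w) 335544320000000 p'.ends.1 p'.ends.2
    rcases conc (r := (a + s * w - 335544320000000) / 10 ^ 11) p.1 k1 k2 with g | g
    · refine ⟨_, _, h.1, ?_⟩
      simp only [Nat.add_eq, Nat.mul_eq, Nat.sub_eq, Nat.cast_add, Nat.cast_mul, Nat.cast_ofNat,
        Nat.cast_one] at a1 ⊢
      nth_rw 1 [← hs]
      linarith [p.2.2.1]
    · refine ⟨_, _, h.2, ?_⟩
      simp only [Nat.add_eq, Nat.mul_eq, Nat.sub_eq, Nat.cast_add, Nat.cast_mul, Nat.cast_ofNat,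
        Nat.cast_one] at a2 ⊢
      nth_rw 1 [← hs]
      linarith [p'.2.2.1]
  · have a0 := lin w0 v (lo := 0) (by linarith) rx.2.2.2
    have a1 := lin w1 v (lo := 0) (by linarith) ry.2.2.2
    have a2 := lin w2 v (lo := 0) (by linarith) rz.2.2.2
    have a3 := lin w v (Y := 10 ^ 12 * k) (p.ends.1.trans (by linarith))
      (le_trans (by linarith) p'.ends.2)
    simp only [Nat.add_eq, Nat.mul_eq, Nat.sub_eq, Nat.cast_add, Nat.cast_mul] at a0 a1 a2 ⊢
    rw [← hs]
    linarith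

/-- All obtuse values of one angle. -/
noncomputable def mid (m w w0 w1 w2 : ℕ) (C : List (ℕ × List ℕ) × ℕ) : ℕ → ℕ → Bool :=
  List.rec (fun _ t => far m w w0 w1 w2 C.2 t) (fun x _ ih c t => pt x.1 fun c' t' =>
    and (iv m w w0 w1 w2 (mn w1 w2) x.2 c t c' t') (ih c' t')) C.1

theorem mid_sound {m w w0 w1 w2 : ℕ} {C : List (ℕ × List ℕ) × ℕ} {k x y z : ℝ} (hx : 0 < x)
    (hy : 0 < y) (hz : 0 < z) (hs : k + x + y + z = π) (hX : 4 ≤ cot k + cot x + cot y + cot z) :
    ∀ β c t, mid m w w0 w1 w2 C c t = true → Pt β c t → π / 2 + arctan β ≤ k →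
    4 * 10 ^ 7 ≤ (m - 10 ^ 8 + (w * k + w0 * x + w1 * y + w2 * z)) *
      (cot k + cot x + cot y + cot z) := by
  obtain ⟨L, n⟩ := C
  induction L with
  | nil => exact fun β c t h p k1 => far_sound h hx hy hz hs (by linarith [p.2.2.2.2])
  | cons a L ih =>
    intro β c t h p k1
    obtain ⟨β', c', t', p', h⟩ := pt_sound h
    rw [Bool.and_eq_true] at h
    rcases le_total k (π / 2 + arctan β') with k2 | k2
    · exact iv_sound h.1 p p' hx hy hz hs k1 k2 hX
    · exact ih β' c' t' h.2 p' k2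

/-- A certificate. -/
abbrev Ce : Type := List ℕ × (List (ℕ × List ℕ) × ℕ) × (List (ℕ × List ℕ) × ℕ) ×
  List (ℕ × List ℕ) × ℕ

/-- The complete check; the constant is shifted by ten, the unit is `10 ^ (-7)`. -/
noncomputable def fc (m a b c : ℕ) (C : Ce) : Bool :=
  force m fun m => force a fun a => force b fun b => force c fun c =>
  force (Nat.add (Nat.add a b) c) fun w => force (mn a b) fun v => pt 4142000 fun c0 t0 =>
  and (and (and (Nat.ble 10000000 (base m 0 (Nat.mul w 1570796326794) 0))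
    (r0 m w a b c (mx v (mn (mx a b) c)) C.1 c0 t0)) (mid m a w b c C.2.1 c0 t0))
    (and (cond (Nat.beq a b) true (mid m b w a c C.2.2.1 c0 t0))
      (cond (Nat.beq b c) true (mid m c w a b C.2.2.2 c0 t0)))

theorem fc_core {m a b c : ℕ} {C : Ce} (h : fc m a b c C = true) {e x y z : ℝ} (he : 0 < e)
    (hx : 0 < x) (hy : 0 < y) (hz : 0 < z) (hs : e + x + y + z = π)
    (hX : 4 ≤ cot e + cot x + cot y + cot z) :
    4 * 10 ^ 7 ≤ (m - 10 ^ 8 + ((a + b + c) * e + a * x + b * y + c * z)) *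
      (cot e + cot x + cot y + cot z) := by
  simp only [fc, force_eq] at h
  obtain ⟨β, c0, t0, p, h⟩ := pt_sound h
  simp only [Bool.and_eq_true, Nat.ble_eq, Nat.add_eq] at h
  obtain ⟨⟨⟨h0, h1⟩, h2⟩, h3, h4⟩ := h
  have m1 : ∀ x y z : ℝ, 0 < y → 0 < z → e + x + y + z = π → 4 ≤ cot e + cot x + cot y + cot z →
      π / 2 + arctan β ≤ x → 4 * 10 ^ 7 ≤ (m - 10 ^ 8 + ((a + b + c) * e + a * x + b * y + c * z)) *
        (cot e + cot x + cot y + cot z) := fun x y z hy hz hs hX k => by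
    have := mid_sound he hy hz (by linarith) (by linarith) β c0 t0 h2 p k
    push_cast at this
    linarith
  have m2 : ∀ x y z : ℝ, 0 < x → 0 < z → e + x + y + z = π → 4 ≤ cot e + cot x + cot y + cot z →
      π / 2 + arctan β ≤ y → 4 * 10 ^ 7 ≤ (m - 10 ^ 8 + ((a + b + c) * e + a * x + b * y + c * z)) *
        (cot e + cot x + cot y + cot z) := fun x y z hx hz hs hX k => by
    cases g : Nat.beq a b
    · rw [g] at h3
      have := mid_sound he hx hz (by linarith) (by linarith) β c0 t0 h3 p k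
      push_cast at this
      linarith
    · have := m1 y x z hx hz (by linarith) (by linarith) k
      rw [← Nat.eq_of_beq_eq_true g] at this ⊢
      linarith
  rcases le_total (π / 2 + arctan β) e with k0 | k0
  · have g := base_le (S := (a + b + c) * e + a * x + b * y + c * z) ?_ (lt_of_lt_of_le
      (by norm_num) h0)
    · have h0' := ((Nat.cast_le (α := ℝ)).mpr h0).trans g
      push_cast at h0'
      nlinarith
    · have := mul_le_mul_of_nonneg_left (show 1570796326794 ≤ 10 ^ 12 * e by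
        linarith [arctan_nonneg.mpr p.1, pi12.1]) (by positivity : (0 : ℝ) ≤ a + b + c)
      have : 0 ≤ a * x + b * y + c * z := by positivity
      rw [Nat.mul_eq]
      push_cast
      linarith
  rcases le_total (π / 2 + arctan β) x with k1 | k1
  · exact m1 x y z hy hz hs hX k1
  rcases le_total (π / 2 + arctan β) y with k2 | k2
  · exact m2 x y z hx hz hs hX k2
  rcases le_total (π / 2 + arctan β) z with k3 | k3
  · cases g : Nat.beq b c
    · rw [g] at h4
      have := mid_sound he hx hy (by linarith) (by linarith) β c0 t0 h4 p k3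
      push_cast at this
      linarith
    · have := m2 x z y hx hy (by linarith) (by linarith) k3
      rw [← Nat.eq_of_beq_eq_true g] at this ⊢
      linarith
  have := r0_sound h1 (p.rg he k0) (p.rg hx k1) (p.rg hy k2) (p.rg hz k3) hs hX
  push_cast at this
  exact this

theorem ip_lt {a b c : V} (ha : ip a a = 1) (hb : ip b b = 1) (hc : ip c c = 1)
    (hd : 0 < det3 a b c) : ip b c ^ 2 < 1 := by
  have h := det3_sq a b c
  have h1 := ip_sq_le a b
  have h2 := ip_sq_le b c
  rw [ha, hb, hc] at *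
  have h3 := pow_pos hd 2
  by_contra hn
  have : ip b c ^ 2 = 1 := by linarith
  nlinarith [sq_nonneg (ip c a - ip a b * ip b c)]

theorem ang_eq {a b c : V} (ha : ip a a = 1) (hb : ip b b = 1) (hc : ip c c = 1)
    (hd : 0 < det3 a b c) :
    Complex.arg ⟨1 + ip b c - ip a b - ip c a, det3 a b c⟩ +
      Complex.arg ⟨1 + ip a b + ip b c + ip c a, det3 a b c⟩ = ang a b c ∧
    Complex.arg ⟨1 + ip c a - ip b c - ip a b, det3 a b c⟩ +
      Complex.arg ⟨1 + ip a b - ip c a - ip b c, det3 a b c⟩ = π - ang a b c :=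
  T32.angles hd (by rw [det3_sq, ha, hb, hc]; ring) (ip_lt ha hb hc hd)

theorem fc_sound {m a b c : ℕ} {C : Ce} (h : fc m a b c C = true) :
    FaceLe ((m - 10 ^ 8) / 10 ^ 7) (a / 10 ^ 7) (b / 10 ^ 7) (c / 10 ^ 7) 0 0 0 := by
  intro p q r hp hq hr hd
  obtain ⟨e1, e0⟩ := ang_eq hp hq hr hd
  obtain ⟨e2, -⟩ := ang_eq hq hr hp (by rwa [det3_rot])
  obtain ⟨e3, -⟩ := ang_eq hr hp hq (by rwa [det3_rot, det3_rot])
  rw [det3_rot, show 1 + ip q r + ip r p + ip p q = 1 + ip p q + ip q r + ip r p by ring] at e2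
  rw [det3_rot, det3_rot, show 1 + ip r p + ip p q + ip q r = 1 + ip p q + ip q r + ip r p by ring]
    at e3
  have d1 := (abs_le.mp (abs_det3_le_one hp hq hr)).2
  have pos : ∀ x : ℝ, 0 < Complex.arg ⟨x, det3 p q r⟩ := fun x => (T32.arg_mem hd).1
  have eX : (1 + ip p q + ip q r + ip r p) / det3 p q r + (1 + ip q r - ip p q - ip r p) / det3 p q r
      + (1 + ip r p - ip q r - ip p q) / det3 p q r + (1 + ip p q - ip r p - ip q r) / det3 p q r
      = 4 / det3 p q r := by ring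
  have := fc_core h (pos (1 + ip p q + ip q r + ip r p)) (pos (1 + ip q r - ip p q - ip r p))
    (pos (1 + ip r p - ip q r - ip p q)) (pos (1 + ip p q - ip r p - ip q r)) (by linarith)
    (by simp only [T32.cot_arg]; rw [eX, le_div_iff₀ hd]; linarith)
  simp only [T32.cot_arg] at this
  rw [eX, ← mul_div_assoc, le_div_iff₀ hd] at this
  rw [rhs, ← e1, ← e2, ← e3]
  linarith

end Pool.Agent.MP_2ab689_gt.Fam.Q
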