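import Pool.Agent.MP_2ab689_gt.Fam.Q.Chain

/-!
Face inequalities when one of the angles is very obtuse.
-/

namespace Pool.Agent.MP_2ab689_gt.Fam.Q

open Real Big E11

theorem cs2 {f1 g1 r1 f2 g2 r2 : ℝ} (a1 : 0 ≤ f1) (b1 : 0 ≤ g1) (a2 : 0 ≤ f2) (b2 : 0 ≤ g2)
    (h1 : r1 ^ 2 ≤ f1 * g1) (h2 : r2 ^ 2 ≤ f2 * g2) : (r1 + r2) ^ 2 ≤ (f1 + f2) * (g1 + g2) := by
  have h3 : (2 * r1 * r2) ^ 2 ≤ (f1 * g2 + f2 * g1) ^ 2 := by
    have := mul_le_mul h1 h2 (sq_nonneg _) (mul_nonneg a1 b1)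
    nlinarith [sq_nonneg (f1 * g2 - f2 * g1)]
  have := (abs_le_of_sq_le_sq' h3 (by positivity)).2
  linarith

/-- One condition. -/
noncomputable def f1 (p q σ κ t z : ℕ) : Bool :=
  force (Nat.mul κ (Nat.mul t t)) fun g => and (and (Nat.ble g 1000000000000000000) (Nat.ble q p))
    (Nat.ble (Nat.mul (Nat.mul (Nat.mul z z) σ) 10000000000000)
      (Nat.mul (Nat.sub p q) (Nat.sub 1000000000000000000 g)))

theorem f1_sound {p q σ κ t z : ℕ} (h : f1 p q σ κ t z = true) (hσ : (0 : ℝ) < σ) {x s : ℝ}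
    (hx : 0 < x) (hs : 0 < s) : ∃ F G : ℝ, 0 ≤ F ∧ 0 ≤ G ∧ (z : ℝ) ^ 2 ≤ F * G ∧
      σ * F = (p - q) * (10 ^ 5 * x) ∧
      G ≤ 1 / x - κ / 10 ^ 6 * (2 * t / 10 ^ 6 / s - x / s ^ 2) := by
  simp only [f1, force_eq, Bool.and_eq_true, Nat.ble_eq, Nat.mul_eq, Nat.sub_eq] at h
  obtain ⟨⟨h1, h2⟩, h3⟩ := h
  have h4 := (Nat.cast_le (α := ℝ)).mpr h3
  rw [Nat.cast_mul (p - q), Nat.cast_sub h2, Nat.cast_sub h1] at h4
  have h1' := (Nat.cast_le (α := ℝ)).mpr h1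
  have h2' : (0 : ℝ) ≤ p - q := sub_nonneg.mpr (by exact_mod_cast h2)
  push_cast at h4 h1'
  refine ⟨(p - q) * (10 ^ 5 * x) / σ, (1 - κ * t ^ 2 / 10 ^ 18) / x, by positivity,
    div_nonneg (by linarith) hx.le, ?_, by field_simp, ?_⟩
  · rw [div_mul_div_comm, le_div_iff₀ (by positivity)]
    nlinarith [mul_le_mul_of_nonneg_right h4 hx.le]
  · have e : 1 / x - κ / 10 ^ 6 * (2 * t / 10 ^ 6 / s - x / s ^ 2) - (1 - κ * t ^ 2 / 10 ^ 18) / x
        = κ / 10 ^ 6 * ((t / 10 ^ 6 - x / s) ^ 2 / x) := by field_simp; ring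
    have : (0 : ℝ) ≤ κ / 10 ^ 6 * ((t / 10 ^ 6 - x / s) ^ 2 / x) := by positivity
    linarith

/-- The check of the very obtuse region. -/
noncomputable def far (m w w0 w1 w2 n t : ℕ) : Bool :=
  force (Nat.add t 4000000) fun σ => force (Nat.add 1000001 (Nat.div (Nat.pow σ 4)
    157000000000000000000000000000000000000000000)) fun κ =>
  force (Nat.add (Nat.mul m 1000000000000) (Nat.mul w 3141592653589)) fun p =>
  force (Nat.add 100000000000000000000 (Nat.mul w σ)) fun q =>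
  force (Nat.mod n 16777216) fun t0 => force (Nat.mod (Nat.shiftRight n 24) 16777216) fun t1 =>
  force (Nat.mod (Nat.shiftRight n 48) 16777216) fun t2 =>
  force (Nat.mod (Nat.shiftRight n 72) 16777216) fun z0 =>
  force (Nat.mod (Nat.shiftRight n 96) 16777216) fun z1 =>
  force (Nat.shiftRight n 120) fun z2 =>
  and (and (and (Nat.ble σ 1200000000000) (Nat.ble 100000000000000000000 p))
    (and (Nat.ble 1000000 (Nat.add (Nat.add t0 t1) t2)) (Nat.ble 2000000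
      (Nat.add (Nat.add z0 z1) z2)))) (and (and (f1 (Nat.add p (Nat.mul w0 σ)) q σ κ t0 z0)
    (f1 (Nat.add p (Nat.mul w1 σ)) q σ κ t1 z1)) (f1 (Nat.add p (Nat.mul w2 σ)) q σ κ t2 z2))

theorem far_core {m w w0 w1 w2 σ κ t0 t1 t2 z0 z1 z2 : ℕ} {k a b c : ℝ} (ha : 0 < a) (hb : 0 < b)
    (hc : 0 < c) (hs : k + a + b + c = π) (h0 : 10 ^ 12 * (a + b + c) ≤ σ)
    (hκ : 10 ^ 6 + (σ : ℝ) ^ 4 / (157 * 10 ^ 42) ≤ κ) (h1 : σ ≤ 1200000000000)
    (h2 : 100000000000000000000 ≤ m * 1000000000000 + w * 3141592653589)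
    (h3 : 1000000 ≤ t0 + t1 + t2) (h4 : 2000000 ≤ z0 + z1 + z2)
    (k0 : f1 (m * 1000000000000 + w * 3141592653589 + w0 * σ) (100000000000000000000 + w * σ)
      σ κ t0 z0 = true)
    (k1 : f1 (m * 1000000000000 + w * 3141592653589 + w1 * σ) (100000000000000000000 + w * σ)
      σ κ t1 z1 = true)
    (k2 : f1 (m * 1000000000000 + w * 3141592653589 + w2 * σ) (100000000000000000000 + w * σ)
      σ κ t2 z2 = true) :
    4 * 10 ^ 7 ≤ (m - 10 ^ 8 + (w * k + w0 * a + w1 * b + w2 * c)) *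
      (cot k + cot a + cot b + cot c) := by
  obtain ⟨s, hs'⟩ : ∃ s, s = a + b + c := ⟨_, rfl⟩
  have s0 : 0 < s := by linarith
  have σ0 : (0 : ℝ) < σ := by linarith
  obtain ⟨F0, G0, a0, b0, c0, d0, e0⟩ := f1_sound k0 σ0 ha s0
  obtain ⟨F1, G1, a1, b1, c1, d1, e1⟩ := f1_sound k1 σ0 hb s0
  obtain ⟨F2, G2, a2, b2, c2, d2, e2⟩ := f1_sound k2 σ0 hc s0
  clear k0 k1 k2
  have h1' := (Nat.cast_le (α := ℝ)).mpr h1
  have h2' := (Nat.cast_le (α := ℝ)).mpr h2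
  have h3' := (Nat.cast_le (α := ℝ)).mpr h3
  have h4' := (Nat.cast_le (α := ℝ)).mpr h4
  push_cast at h1' h2' h3' h4' d0 d1 d2
  rw [← hs'] at h0
  have s1 : s ≤ 6 / 5 := by linarith
  have cs := cs2 (add_nonneg a0 a1) (add_nonneg b0 b1) a2 b2 (cs2 a0 b0 a1 b1 c0 c1) c2
  have ek : k = π - s := by linarith
  have u1 : F0 + F1 + F2 ≤ 10 ^ 5 * (m - 10 ^ 8 + (w * k + w0 * a + w1 * b + w2 * c)) := by
    refine le_of_mul_le_mul_left ?_ σ0
    have v1 := mul_le_mul_of_nonneg_left h0 (sub_nonneg.mpr h2')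
    have v2 := mul_le_mul_of_nonneg_left pi12.1 (by positivity : (0 : ℝ) ≤ w * σ)
    rw [ek]
    rw [hs'] at v1 ⊢
    linarith
  have u2 : G0 + G1 + G2 ≤ cot k + cot a + cot b + cot c := by
    have e4 : cot k = -cot s := by
      rw [ek, cot_eq_cos_div_sin, cot_eq_cos_div_sin, cos_pi_sub, sin_pi_sub, neg_div]
    have r0 := cot_le3 s0 s1
    have r1 := T32.cot_ge ha (by linarith)
    have r2 := T32.cot_ge hb (by linarith)
    have r3 := T32.cot_ge hc (by linarith)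
    have r4 : a ^ 3 + b ^ 3 + c ^ 3 ≤ s ^ 3 := by
      have : s ^ 3 = a ^ 3 + b ^ 3 + c ^ 3 + 3 * ((a + b) * (b + c) * (c + a)) := by
        rw [hs']; ring
      have : 0 < (a + b) * (b + c) * (c + a) := by positivity
      linarith
    have r5 : 1 / s + s ^ 3 / 157 ≤ κ / 10 ^ 6 * (1 / s) := by
      have := pow_le_pow_left₀ (by positivity) h0 4
      rw [mul_one_div, le_div_iff₀ s0, add_mul, one_div_mul_cancel s0.ne']
      linarith
    have r6 : a / s ^ 2 + b / s ^ 2 + c / s ^ 2 = 1 / s := by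
      rw [← add_div, ← add_div, ← hs']; field_simp
    have r7 : 2 / s ≤ 2 * t0 / 10 ^ 6 / s + 2 * t1 / 10 ^ 6 / s + 2 * t2 / 10 ^ 6 / s := by
      rw [← add_div, ← add_div]
      exact div_le_div_of_nonneg_right (by linarith) s0.le
    have r8 := mul_le_mul_of_nonneg_left (show 1 / s ≤ (2 * t0 / 10 ^ 6 / s - a / s ^ 2) +
      (2 * t1 / 10 ^ 6 / s - b / s ^ 2) + (2 * t2 / 10 ^ 6 / s - c / s ^ 2) by
        have : 2 / s = 2 * (1 / s) := by ring
        linarith) (by positivity : (0 : ℝ) ≤ κ / 10 ^ 6)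
    have r9 : 0 < s ^ 3 := by positivity
    rw [e4]
    linarith
  have u3 := mul_le_mul u1 u2 (by positivity) (le_trans (by positivity) u1)
  have u4 := pow_le_pow_left₀ (by norm_num) h4' 2
  linarith

theorem far_sound {m w w0 w1 w2 n t : ℕ} (h : far m w w0 w1 w2 n t = true) {k a b c : ℝ}
    (ha : 0 < a) (hb : 0 < b) (hc : 0 < c) (hs : k + a + b + c = π)
    (h0 : 10 ^ 12 * (a + b + c) ≤ t + 4000000) :
    4 * 10 ^ 7 ≤ (m - 10 ^ 8 + (w * k + w0 * a + w1 * b + w2 * c)) *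
      (cot k + cot a + cot b + cot c) := by
  simp only [far, force_eq, Bool.and_eq_true, Nat.ble_eq] at h
  obtain ⟨⟨⟨h1, h2⟩, h3, h4⟩, ⟨k0, k1⟩, k2⟩ := h
  refine far_core ha hb hc hs (by simpa using h0) ?_ h1 h2 h3 h4 k0 k1 k2
  generalize Nat.add t 4000000 = σ
  have := (div_bd (a := σ ^ 4) (b := 157000000000000000000000000000000000000000000)
    (x := (σ : ℝ) ^ 4 / (157 * 10 ^ 42)) (by norm_num) (by push_cast; ring)).2
  rw [Nat.add_eq, div_eq', Nat.pow_eq, Nat.cast_add]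
  push_cast
  linarith

end Pool.Agent.MP_2ab689_gt.Fam.Q
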