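import Pool.Agent.MP_2ab689_gt.E11.Tan
import Pool.Agent.MP_2ab689_gt.Fam.Spec

/-!
Points of tangency in fixed point arithmetic.
-/

namespace Pool.Agent.MP_2ab689_gt.Fam.Q

open Real Big E11

theorem tang0 {c y : ℝ} (hc : 0 ≤ c) (h0 : 0 < y) (h1 : y < π) (hu : -c ≤ cot y) :
    c + (1 + c ^ 2) * (π / 2 - arctan c) ≤ cot y + (1 + c ^ 2) * y := by
  have eb : y = π / 2 - arctan (cot y) := by linarith [atan_cot h0 h1]
  generalize cot y = u at *
  have hd : ∀ y : ℝ, HasDerivAt (fun u => u - (1 + c ^ 2) * arctan u)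
      ((y ^ 2 - c ^ 2) / (1 + y ^ 2)) y := fun y =>
    ((hasDerivAt_id' y).sub ((hasDerivAt_arctan y).const_mul _)).congr_deriv (by field_simp; ring)
  rw [eb]
  rcases le_total c u with h | h
  · have := mono_of hd h fun y a _ => div_nonneg (by nlinarith) (by positivity)
    linarith
  · have := mono_of (fun y => (hd y).neg) h fun y a b => by
      rw [← neg_div]; exact div_nonneg (by nlinarith) (by positivity)
    simp only [Pi.neg_apply] at this
    linarith

theorem conc {r b1 b2 y : ℝ} (hb : 0 ≤ b1) (h1 : π / 2 + arctan b1 ≤ y)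
    (h2 : y ≤ π / 2 + arctan b2) :
    -b1 + r * (π / 2 + arctan b1) ≤ cot y + r * y ∨
      -b2 + r * (π / 2 + arctan b2) ≤ cot y + r * y := by
  have h0 : 0 < y := by linarith [arctan_nonneg.mpr hb, pi_pos]
  have e := atan_cot h0 (by linarith [arctan_lt_pi_div_two b2])
  obtain ⟨u, hu⟩ : ∃ u, u = -cot y := ⟨_, rfl⟩
  have eb : y = π / 2 + arctan u := by rw [hu, arctan_neg]; linarith
  have u1 : b1 ≤ u := by rw [← arctan_le_arctan_iff]; linarith
  have u2 : u ≤ b2 := by rw [← arctan_le_arctan_iff]; linarith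
  have ec : cot y = -u := by linarith
  rw [ec, eb]
  have hd : ∀ v : ℝ, HasDerivAt (fun v => r * arctan v - v)
      ((r - (1 + v ^ 2)) / (1 + v ^ 2)) v := fun v =>
    (((hasDerivAt_arctan v).const_mul _).sub (hasDerivAt_id' v)).congr_deriv (by field_simp)
  rcases le_total (1 + u ^ 2) r with h | h
  · left
    have := mono_of hd u1 fun v a b => div_nonneg (by nlinarith) (by positivity)
    linarith
  · right
    have := mono_of (fun v => (hd v).neg) u2 fun v a b => by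
      rw [← neg_div]
      exact div_nonneg (by nlinarith) (by positivity)
    simp only [Pi.neg_apply] at this
    linarith

theorem cot_ge_of {b y : ℝ} (h0 : 0 < y) (h1 : y ≤ π / 2 + arctan b) : -b ≤ cot y := by
  have e := atan_cot h0 (by linarith [arctan_lt_pi_div_two b])
  rw [← arctan_le_arctan_iff, arctan_neg, e]; linarith

theorem quad {x : ℝ} (h0 : 0 < x) (h1 : x < 1) :
    π / 2 - arctan ((1 + x ^ 4 - 6 * x ^ 2) / (4 * x * (1 - x ^ 2))) = 4 * arctan x := by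
  have a0 : 0 < arctan x := arctan_pos.mpr h0
  have a1 : arctan x < π / 4 := by rw [← arctan_one]; exact arctan_lt_arctan_iff.mpr h1
  have h2 : 0 < 1 - x ^ 2 := by nlinarith
  have e : cot (4 * arctan x) = (1 + x ^ 4 - 6 * x ^ 2) / (4 * x * (1 - x ^ 2)) := by
    rw [← tan_inv_eq_cot, show 4 * arctan x = 2 * (2 * arctan x) by ring, tan_two_mul,
      tan_two_mul, tan_arctan, inv_div]
    field_simp
    ring
  rw [← e, atan_cot (by linarith) (by linarith)]
  ring

theorem tsub (a b : ℕ) : ((a - b : ℕ) : ℝ) = max ((a : ℝ) - b) 0 := by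
  rcases le_total b a with h | h
  · rw [Nat.cast_sub h, max_eq_left (sub_nonneg.mpr (by exact_mod_cast h))]
  · rw [Nat.sub_eq_zero_of_le h, max_eq_right (sub_nonpos.mpr (by exact_mod_cast h))]; simp

theorem div_eq' (a b : ℕ) : Nat.div a b = a / b := rfl

theorem div_bd {a b : ℕ} {x : ℝ} (h : 0 < b) (e : (a : ℝ) = x * b) :
    ((a / b : ℕ) : ℝ) ≤ x ∧ x ≤ (a / b : ℕ) + 1 := by
  have hb : (0 : ℝ) < b := by exact_mod_cast h
  refine ⟨Nat.cast_div_le.trans (by rw [e, mul_div_cancel_right₀ _ hb.ne']), ?_⟩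
  have : (a : ℝ) < (a / b : ℕ) * b + b := by exact_mod_cast Nat.lt_div_mul_add (a := a) h
  exact le_of_mul_le_mul_right (by linarith) hb

/-- Enclosures of a cotangent and of its angle. -/
def Pt (b : ℝ) (c t : ℕ) : Prop := 0 ≤ b ∧ c ≤ 10 ^ 11 * b ∧ 10 ^ 11 * b ≤ c + 1 ∧
  t ≤ 10 ^ 12 * (π / 2 - arctan b) ∧ 10 ^ 12 * (π / 2 - arctan b) ≤ t + 4000000

/-- The point with the tangent of the quarter angle equal to `T / 10 ^ 7`. -/
noncomputable def pt (T : ℕ) (k : ℕ → ℕ → Bool) : Bool :=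
  force T fun T => force (Nat.mul T T) fun u => force (Nat.mul u u) fun v =>
  and (and (Nat.blt 0 T) (Nat.ble T 4142000))
  (force (Nat.div (Nat.mul 100000000000 (Nat.sub (Nat.add 10000000000000000000000000000 v)
    (Nat.mul 600000000000000 u))) (Nat.mul (Nat.mul 40000000 T) (Nat.sub 100000000000000 u)))
    fun c => force (Nat.div (Nat.mul (Nat.mul 4 T) (Nat.sub (Nat.mul 100000000000000
      (Nat.add 346500000000000000000000000000000000000000000000000000000000 (Nat.mul v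
        (Nat.add 6930000000000000000000000000000 (Nat.mul 385 v))))) (Nat.mul u
      (Nat.add 115500000000000000000000000000000000000000000000000000000000 (Nat.mul v
        (Nat.add 4950000000000000000000000000000 (Nat.mul 315 v)))))))
      346500000000000000000000000000000000000000000000000000000000000000000) (k c))

theorem pt_sound {T : ℕ} {k : ℕ → ℕ → Bool} (h : pt T k = true) :
    ∃ b c t, Pt b c t ∧ k c t = true := by
  simp only [pt, force_eq, Bool.and_eq_true, Nat.blt_eq, Nat.ble_eq, Nat.add_eq, Nat.mul_eq,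
    Nat.sub_eq, div_eq'] at h
  obtain ⟨⟨h0, h1⟩, h⟩ := h
  obtain ⟨x, hx⟩ : ∃ x : ℝ, (T : ℝ) = 10 ^ 7 * x := ⟨T / 10 ^ 7, by field_simp⟩
  have h0' : (0 : ℝ) < T := by exact_mod_cast h0
  have h1' : (T : ℝ) ≤ 4142000 := by exact_mod_cast h1
  have x0 : 0 < x := by linarith
  have x1 : x ≤ 0.4142 := by linarith
  have x2 : x ^ 2 ≤ 0.17157 := by nlinarith
  have x3 : 0 ≤ 1 + x ^ 4 - 6 * x ^ 2 := by nlinarith [sq_nonneg (x ^ 2 - 0.17157)]
  have x4 : 0 < 1 - x ^ 2 := by linarith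
  obtain ⟨a1, a2⟩ := atan_pos x0.le
  have a3 : x ^ 13 ≤ 0.4142 ^ 13 := pow_le_pow_left₀ x0.le x1 13
  have a4 : 0 ≤ x - x ^ 3 / 3 + x ^ 5 / 5 - x ^ 7 / 7 + x ^ 9 / 9 - x ^ 11 / 11 := by
    have e : x - x ^ 3 / 3 + x ^ 5 / 5 - x ^ 7 / 7 + x ^ 9 / 9 - x ^ 11 / 11 =
      x * (1 - x ^ 2 / 3) + x ^ 5 * (1 / 5 - x ^ 2 / 7) + x ^ 9 * (1 / 9 - x ^ 2 / 11) := by ring
    rw [e]
    have : 0 ≤ 1 - x ^ 2 / 3 := by linarith
    have : 0 ≤ 1 / 5 - x ^ 2 / 7 := by linarith
    have : 0 ≤ 1 / 9 - x ^ 2 / 11 := by linarith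
    positivity
  have d0 : 0 < 40000000 * T * (100000000000000 - T * T) :=
    Nat.mul_pos (by omega) (Nat.sub_pos_of_lt ((Nat.mul_le_mul h1 h1).trans_lt (by norm_num)))
  refine ⟨(1 + x ^ 4 - 6 * x ^ 2) / (4 * x * (1 - x ^ 2)), _, _, ⟨by positivity, ?_⟩, h⟩
  rw [quad x0 (by linarith), ← and_assoc]
  constructor
  · refine div_bd d0 ?_
    push_cast [tsub, hx]
    rw [max_eq_left (by linarith), max_eq_left (by linarith)]
    field_simp
    ring
  · have key : ∀ t : ℝ, t ≤ 10 ^ 12 * 4 * (x - x ^ 3 / 3 + x ^ 5 / 5 - x ^ 7 / 7 + x ^ 9 / 9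
        - x ^ 11 / 11) ∧ 10 ^ 12 * 4 * (x - x ^ 3 / 3 + x ^ 5 / 5 - x ^ 7 / 7 + x ^ 9 / 9
        - x ^ 11 / 11) ≤ t + 1 → t ≤ 10 ^ 12 * (4 * arctan x) ∧
          10 ^ 12 * (4 * arctan x) ≤ t + 4000000 := fun t h => ⟨by linarith, by linarith⟩
    refine key _ (div_bd (by norm_num) ?_)
    push_cast [tsub, hx]
    rw [mul_max_of_nonneg _ _ (by positivity), max_eq_left (by linarith)]
    ring

end Pool.Agent.MP_2ab689_gt.Fam.Q
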